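import Pool.Agent.W744.GL.Stm

set_option autoImplicit false

open Metric Set Filter Topology Complex
open scoped ComplexConjugate

namespace Pool.Agent.W509.GL.CL

open Pool.Agent.W744.GL
open Pool.Agent.Helper503.Gp (HI IsChar Gl bfac cay PH BlaOn BF mu)

theorem main (h : S_ULCH) : S_CL := by
  intro U V hV ζ hζ s ε hε
  have hch : ∀ (z : ℂ), 0 < z.im → ∀ a : ℤ, IsChar (pt ((a : ℂ) + z)) := by
    intro z hz a
    apply h.1
    simpa using hz
  have hlim : ∀ (W : Ultrafilter ℤ) (z : ℂ), 0 < z.im → ∀ f : ℂ → ℂ,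
      Tendsto (fun a : ℤ => pt ((a : ℂ) + z) f) W (𝓝 (lam W z f)) := by
    intro W z hz f
    exact (h.2 ℤ W (fun a : ℤ => pt ((a : ℂ) + z)) (hch z hz)).2 f
  set A : Set ℤ := {a : ℤ | ∀ f ∈ s, ‖pt ((a : ℂ) + ζ) f - lam V ζ f‖ < ε / 2} with hA
  have hAV : A ∈ V := by
    have : ∀ᶠ a : ℤ in (V : Filter ℤ), ∀ f ∈ s, ‖pt ((a : ℂ) + ζ) f - lam V ζ f‖ < ε / 2 := by
      rw [Filter.eventually_all_finset]
      intro f _
      have h1 := (Metric.tendsto_nhds.mp (hlim V ζ hζ f)) (ε / 2) (by positivity)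
      filter_upwards [h1] with a ha
      rwa [dist_eq_norm] at ha
    exact this
  have hop := ultrafilter_isOpen_basic A
  obtain ⟨W, hW1, k, hk⟩ := mem_closure_iff.mp hV _ hop hAV
  have hW : A ∈ sh U k := by
    rw [hk]
    exact hW1
  have hU : {a : ℤ | a + k ∈ A} ∈ U := hW
  refine ⟨lam U (ζ + k), ⟨ζ + k, by simpa using hζ, rfl⟩, ?_⟩
  intro f hf
  have hz : 0 < (ζ + k).im := by simpa using hζ
  have h2 := hlim U (ζ + k) hz f
  have h3 : Tendsto (fun a : ℤ => ‖pt ((a : ℂ) + (ζ + k)) f - lam V ζ f‖) U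
      (𝓝 ‖lam U (ζ + k) f - lam V ζ f‖) := (h2.sub_const _).norm
  have h4 : ‖lam U (ζ + k) f - lam V ζ f‖ ≤ ε / 2 := by
    refine le_of_tendsto h3 ?_
    filter_upwards [hU] with a ha
    have h5 := ha f hf
    have h6 : (a : ℂ) + (ζ + k) = ((a + k : ℤ) : ℂ) + ζ := by
      push_cast
      ring
    rw [h6]
    exact h5.le
  linarith

end Pool.Agent.W509.GL.CL
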